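import Mathlib
import Pool.Agent.N119.PS.Stm

/-!
PSC/GIB: the Gibbs upper bound for the Patterson-Sullivan current (helper31 for the project PSC of
helper119).
-/

set_option autoImplicit false

namespace Pool.Agent.N31.PSC.GIB

open Pool.Agent.H472R3 Pool.Agent.H67R3.FSR Pool.Agent.H67R4.SR Pool.Agent.N119.PS
open MeasureTheory Topology Filter
open scoped ENNReal NNReal

variable {N : ℕ}

lemma critExp_nonneg (A : FTree N) : 0 ≤ critExp A := by
  unfold critExp
  exact Real.sInf_nonneg fun s hs => hs.1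

lemma comap_le {α β : Type} [MeasurableSpace α] [MeasurableSpace β] (f : α → β) (μ : Measure β)
    {s : Set α} (hs : MeasurableSet s) : Measure.comap f μ s ≤ μ (f '' s) := by
  by_cases h : Function.Injective f ∧ ∀ s, MeasurableSet s → NullMeasurableSet (f '' s) μ
  · exact (Measure.comap_apply₀ f μ h.1 h.2 hs.nullMeasurableSet).le
  · have : Measure.comap f μ = 0 := by
      rw [Measure.comap, dif_neg h]
    rw [this]
    simp

theorem t (h1 : S_BCL) (h2 : S_BUS) (h3 : S_SHA) (h4 : S_CYL) : S_GIB := by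
  intro N A hA μ hμ
  obtain ⟨ν, hν, c, x, hμe⟩ := hμ
  obtain ⟨C, hC⟩ := h1 N A hA x
  have hh := critExp_nonneg A
  set h := critExp A with hhdef
  haveI : IsFiniteMeasure (ν x) := hν.finite x
  have hVfin : ν x Set.univ ≠ ∞ := measure_ne_top _ _
  obtain ⟨V, hV⟩ : ∃ V : ℝ, V = (ν x Set.univ).toReal := ⟨_, rfl⟩
  have hV0 : 0 ≤ V := by rw [hV]; exact ENNReal.toReal_nonneg
  have hVe : ν x Set.univ = ENNReal.ofReal V := by rw [hV, ENNReal.ofReal_toReal hVfin]
  refine ⟨x, (c : ℝ) * (Real.exp (2 * h * C) * (V * (Real.exp (h * (2 * C)) * V))) + 1,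
    by positivity, fun g => ?_⟩
  have hms : MeasurableSet (Cyl g) := ((h4 N).1 g).1.isOpen.measurableSet
  have hm : ((ν x).prod (ν x)).comap (fun q : Bd2 N => q.1) (Cyl g) ≤
      ENNReal.ofReal (V * (Real.exp (h * (2 * C - (lenFn A x).L g)) * V)) := by
    refine (comap_le _ _ hms).trans ?_
    have hsub : (fun q : Bd2 N => q.1) '' (Cyl g) ⊆ Set.univ ×ˢ {ζ : Bd N | ray ζ g.norm = g} := by
      rintro _ ⟨q, hq, rfl⟩
      exact ⟨Set.mem_univ _, hq.2⟩
    refine (measure_mono hsub).trans ?_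
    rw [Measure.prod_prod]
    have h5 := h3 N A hA x C hC ν hν g
    rw [ENNReal.ofReal_mul hV0, ENNReal.ofReal_mul (Real.exp_pos _).le, ← hVe]
    exact mul_le_mul_right h5 _
  have hmu : μ.meas (Cyl g) ≤ ENNReal.ofReal ((c : ℝ) * (Real.exp (2 * h * C) *
      (V * (Real.exp (h * (2 * C - (lenFn A x).L g)) * V)))) := by
    rw [hμe, Measure.smul_apply, withDensity_apply _ hms, ENNReal.smul_def, smul_eq_mul,
      ENNReal.ofReal_mul (NNReal.coe_nonneg c), ENNReal.ofReal_coe_nnreal,
      ENNReal.ofReal_mul (Real.exp_pos _).le]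
    refine mul_le_mul_right ?_ _
    refine (setLIntegral_mono' hms (g := fun _ => ENNReal.ofReal (Real.exp (2 * h * C)))
      fun q hq => ?_).trans ?_
    · refine ENNReal.ofReal_le_ofReal (Real.exp_le_exp.2 ?_)
      exact mul_le_mul_of_nonneg_left ((h2 N A hA x C hC).2 q hq.1) (by positivity)
    · rw [setLIntegral_const]
      exact mul_le_mul_right hm _
  have hre : μ.meas.real (Cyl g) ≤ (c : ℝ) * (Real.exp (2 * h * C) *
      (V * (Real.exp (h * (2 * C - (lenFn A x).L g)) * V))) := by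
    unfold Measure.real
    have h6 := ENNReal.toReal_mono ENNReal.ofReal_ne_top hmu
    rwa [ENNReal.toReal_ofReal (by positivity)] at h6
  have he : Real.exp (h * (2 * C - (lenFn A x).L g)) =
      Real.exp (h * (2 * C)) * Real.exp (-h * (lenFn A x).L g) := by
    rw [← Real.exp_add]; congr 1; ring
  calc μ.meas.real (Cyl g) ≤ (c : ℝ) * (Real.exp (2 * h * C) *
        (V * (Real.exp (h * (2 * C - (lenFn A x).L g)) * V))) := hre
    _ = (c : ℝ) * (Real.exp (2 * h * C) * (V * (Real.exp (h * (2 * C)) * V))) *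
        Real.exp (-h * (lenFn A x).L g) := by rw [he]; ring
    _ ≤ ((c : ℝ) * (Real.exp (2 * h * C) * (V * (Real.exp (h * (2 * C)) * V))) + 1) *
        Real.exp (-h * (lenFn A x).L g) :=
      mul_le_mul_of_nonneg_right (by linarith) (Real.exp_pos _).le

end Pool.Agent.N31.PSC.GIB
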